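import Pool.Agent.H16.TQ.Box
import Pool.Agent.H42.TQ.B1
import Pool.Agent.H42.TQ.A2
import Pool.Agent.H67.TQ.P
import Pool.Agent.H87.EP.D

/-!
MP_09540e_TQ: the corrected functional is between zero and a multiple of `NO`.
-/

set_option autoImplicit false

open Set Filter Topology MeasureTheory
open scoped ContDiff InnerProductSpace

namespace Pool.Agent.H94.TQ

open Pool.Agent.H16 Pool.Agent.H87.NS Pool.Agent.H72.CC Pool.Agent.H16.TU Pool.Agent.H94.EP Pool.Agent.H87.EP
open Pool.Agent.H42.TQ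

/-- The facts on the projections. -/
theorem pf : Pool.Agent.H16.TQ.Pf where
  lip c hc f g := Pc_lip hc.le f g
  le c hc f := Pc_norm hc.le f
  nn c hc f := ec_nonneg hc.le f
  eu c _ f := ec_le c f
  lo c hc f h := ec_lo hc.le f h
  hi c hc f h := ec_up hc.le f h
  cc c c' hc h f := by
    have h1 := Pc_rel hc (hc.trans_le h) f
    have h2 : 0 ≤ c' / c - 1 := by
      rw [sub_nonneg, one_le_div hc]
      exact h
    rwa [abs_of_nonneg h2] at h1

theorem c2_smooth : ContDiff ℝ ∞ c2 := by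
  unfold c2
  exact Real.smoothTransition.contDiff.comp (contDiff_const.sub (contDiff_const.mul C_rsq_smooth))

theorem cb_smooth (L b : ℝ) : ContDiff ℝ ∞ (cb L b) := by
  have h1 : ContDiff ℝ ∞ (fun x : E3 => x 2) := (EuclideanSpace.proj (𝕜 := ℝ) (2 : Fin 3)).contDiff
  unfold cb
  refine (c2_smooth.pow 2).mul (Real.smoothTransition.contDiff.comp ?_)
  exact contDiff_const.sub (((h1.sub contDiff_const).div_const L).pow 2)

theorem cb_cs {L : ℝ} (hL : 0 < L) (b : ℝ) : Cs (cb L b) := by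
  refine ⟨cb_smooth L b, ?_⟩
  refine HasCompactSupport.intro (isCompact_closedBall (0 : E3) (1 + |b| + 2 * L)) fun x hx => ?_
  by_contra h
  have h1 : rsq x < 1 / 8 := by
    by_contra h'
    exact h (Pool.Agent.H16.TQ.cb_z' (not_lt.1 h'))
  have h2 : |x 2 - b| ≤ 2 * L := by
    by_contra h'
    exact h (Pool.Agent.H16.TQ.cb_z hL (not_le.1 h'))
  apply hx
  rw [mem_closedBall_zero_iff]
  have h3 : ‖x‖ ^ 2 = rsq x + x 2 ^ 2 := by
    rw [Cut_nsq]
    unfold rsq
    ring
  have h4 : |x 2| ≤ |b| + 2 * L := by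
    have := abs_sub_abs_le_abs_sub (x 2) b
    linarith
  have h5 : x 2 ^ 2 ≤ (|b| + 2 * L) ^ 2 := by
    rw [← sq_abs]
    exact pow_le_pow_left₀ (abs_nonneg _) h4 2
  have h6 := abs_nonneg b
  refine le_of_sq_le_sq ?_ (by positivity)
  rw [h3]
  nlinarith

theorem Fb_cs {L : ℝ} (hL : 0 < L) (b : ℝ) {v : E3 → E3} (hv : Vs v) : Cs (Fb L b v) := by
  have hO : ContDiff ℝ ∞ (sO v) := (vs_ri hv).2.2.1.sm
  refine ⟨(cb_smooth L b).mul hO, ?_⟩
  exact (cb_cs hL b).cs.mul_right

theorem Psi_bd {m r2 m0 : ℝ} (hp : Pool.Agent.H16.TQ.Pr m r2 m0) {F : E3 → ℝ} (hF : Cs F) :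
    0 ≤ Psi m r2 m0 F ∧ Psi m r2 m0 F ≤ 1 / 2 * ∫ x, F x ^ 2 := by
  have h1 : ∀ q, 0 ≤ Pool.Agent.H16.TQ.Ei m r2 m0 q (fib F q) := fun q => Pool.Agent.H16.TQ.Ei_nn pf hp q _
  have h2 : ∀ q, Pool.Agent.H16.TQ.Ei m r2 m0 q (fib F q) ≤ 1 / 2 * ‖fib F q‖ ^ 2 := fun q => by
    have := Pool.Agent.H16.TQ.Ei_le pf hp q (fib F q)
    linarith
  have h3 : Psi m r2 m0 F = ∫ q, Pool.Agent.H16.TQ.Ei m r2 m0 q (fib F q) := rfl
  rw [h3]
  refine ⟨integral_nonneg h1, ?_⟩
  have hi : Integrable (fun x => F x ^ 2) := by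
    refine Continuous.integrable_of_hasCompactSupport (hF.cont.pow 2) ?_
    have : (fun x => F x ^ 2) = fun x => F x * F x := by
      funext x
      ring
    rw [this]
    exact hF.cs.mul_left
  have h4 : ∫ q : ℝ × ℝ, ‖fib F q‖ ^ 2 = ∫ x, F x ^ 2 := by
    rw [← fib_fub (H := fun x => F x ^ 2) (hF.cont.pow 2) hi]
    exact integral_congr_ae (Eventually.of_forall fun q => fib_norm hF q)
  have h5 : Integrable (fun q : ℝ × ℝ => 1 / 2 * ‖fib F q‖ ^ 2) := by
    refine Continuous.integrable_of_hasCompactSupport (continuous_const.mul ((fib_cont hF).norm.pow 2)) ?_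
    obtain ⟨A, hA⟩ := fib_out hF
    refine HasCompactSupport.intro (isCompact_closedBall (0 : ℝ × ℝ) (|A| + 1)) fun q hq => ?_
    have h6 : A ≤ sq2 q := by
      by_contra h
      have h7 : sq2 q < A := not_le.1 h
      apply hq
      rw [mem_closedBall_zero_iff, Prod.norm_def]
      have h8 : |A| = A := abs_of_nonneg ((Pool.Agent.H16.TQ.sq2_nn q).trans h7.le)
      have h9 : 0 ≤ A := (Pool.Agent.H16.TQ.sq2_nn q).trans h7.le
      unfold sq2 at h7
      refine max_le ?_ ?_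
      · refine le_of_sq_le_sq ?_ (by positivity)
        rw [Real.norm_eq_abs, sq_abs, h8]
        nlinarith [sq_nonneg q.2]
      · refine le_of_sq_le_sq ?_ (by positivity)
        rw [Real.norm_eq_abs, sq_abs, h8]
        nlinarith [sq_nonneg q.1]
    rw [hA q h6]
    simp
  refine (integral_mono_of_nonneg (Eventually.of_forall h1) h5 (Eventually.of_forall h2)).trans ?_
  rw [integral_const_mul, h4]

/-- The height weight in a box. -/
theorem ph_box {L : ℝ} (hL : 0 < L) {a b z : ℝ} (h : |z - b| ≤ 2 * L) : ph L a b ≤ 9 * ph L a z := by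
  unfold ph
  rw [← div_eq_mul_inv, le_div_iff₀ (by positivity), ← div_eq_inv_mul, div_le_iff₀ (by positivity)]
  have h1 : (z - b) ^ 2 ≤ 4 * L ^ 2 := by
    rw [← sq_abs]
    have := pow_le_pow_left₀ (abs_nonneg _) h 2
    nlinarith
  have h2 : (z - a) ^ 2 ≤ 8 * L ^ 2 + 2 * (b - a) ^ 2 := by nlinarith [sq_nonneg (z - b - (b - a))]
  have h3 : (z - a) ^ 2 / L ^ 2 ≤ 8 + 2 * ((b - a) ^ 2 / L ^ 2) := by
    rw [div_le_iff₀ (by positivity)]
    have : (8 + 2 * ((b - a) ^ 2 / L ^ 2)) * L ^ 2 = 8 * L ^ 2 + 2 * (b - a) ^ 2 := by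
      field_simp
    linarith
  have h4 : 0 ≤ (b - a) ^ 2 / L ^ 2 := by positivity
  linarith

/-- The sum over the boxes. -/
theorem cb_sum {L : ℝ} (hL : 1 ≤ L) (a : ℝ) (x : E3) :
    Integrable (fun b => ph L a b * cb L b x ^ 2) ∧ ∫ b, ph L a b * cb L b x ^ 2 ≤ 36 * L * A1 L a x := by
  have hL0 : 0 < L := by linarith
  have hc : Continuous (fun b => ph L a b * cb L b x ^ 2) := by
    have h1 : Continuous (fun b => cb L b x) :=
      Pool.Agent.H16.TQ.cb_cont.comp (f := fun b : ℝ => (b, x)) (by fun_prop)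
    exact (ph_smooth L a).continuous.mul (h1.pow 2)
  have h0 : ∀ b, 0 ≤ ph L a b * cb L b x ^ 2 := fun b => mul_nonneg (ph_pos L a b).le (sq_nonneg _)
  have hcb : ∀ b, cb L b x ^ 2 ≤ 1 := fun b => by
    have := Pool.Agent.H16.TQ.cb_01 (L := L) b x
    exact pow_le_one₀ this.1 this.2
  have hi : Integrable (fun b => ph L a b * cb L b x ^ 2) := by
    refine (ph_int hL a).1.mono' hc.aestronglyMeasurable (Eventually.of_forall fun b => ?_)
    rw [Real.norm_eq_abs, abs_of_nonneg (h0 b)]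
    exact mul_le_of_le_one_right (ph_pos L a b).le (hcb b)
  refine ⟨hi, ?_⟩
  rcases le_or_gt (1 / 8) (rsq x) with hx | hx
  · have h1 : (fun b => ph L a b * cb L b x ^ 2) = fun _ => 0 := by
      funext b
      rw [Pool.Agent.H16.TQ.cb_z' hx]
      simp
    rw [h1, integral_zero]
    exact mul_nonneg (by positivity) (A1_nn L a x).1
  · have hA : A1 L a x = ph L a (x 2) := A1_one L a (by linarith)
    have h2 : ∀ b, ph L a b * cb L b x ^ 2 ≤
        (Icc (x 2 - 2 * L) (x 2 + 2 * L)).indicator (fun _ => 9 * ph L a (x 2)) b := by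
      intro b
      by_cases hb : b ∈ Icc (x 2 - 2 * L) (x 2 + 2 * L)
      · rw [indicator_of_mem hb]
        have h3 : |x 2 - b| ≤ 2 * L := by
          rw [abs_le]
          constructor
          · linarith [hb.2]
          · linarith [hb.1]
        exact (mul_le_of_le_one_right (ph_pos L a b).le (hcb b)).trans (ph_box hL0 h3)
      · rw [indicator_of_notMem hb]
        have h3 : 2 * L < |x 2 - b| := by
          by_contra h
          rw [not_lt, abs_le] at h
          exact hb ⟨by linarith [h.2], by linarith [h.1]⟩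
        rw [Pool.Agent.H16.TQ.cb_z hL0 h3]
        simp
    have hi2 : Integrable ((Icc (x 2 - 2 * L) (x 2 + 2 * L)).indicator fun _ : ℝ => 9 * ph L a (x 2)) :=
      (integrable_indicator_iff measurableSet_Icc).2 (integrableOn_const (by simp))
    refine (integral_mono_of_nonneg (Eventually.of_forall h0) hi2 (Eventually.of_forall h2)).trans ?_
    rw [integral_indicator measurableSet_Icc, setIntegral_const, Real.volume_real_Icc, max_eq_left (by linarith), hA]
    simp only [smul_eq_mul]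
    nlinarith [ph_pos L a (x 2)]

theorem PS_bd {m r2 m0 : ℝ} (hp : Pool.Agent.H16.TQ.Pr m r2 m0) {L : ℝ} (hL : 1 ≤ L) (a : ℝ) {v : E3 → E3} (hv : Vs v) :
    0 ≤ PS m r2 m0 L a v ∧ PS m r2 m0 L a v ≤ 18 * NO L a v := by
  have hL0 : 0 < L := by linarith
  have hO := (vs_ri hv).2.2.1
  have h0 : ∀ b, 0 ≤ ph L a b * Psi m r2 m0 (Fb L b v) := fun b =>
    mul_nonneg (ph_pos L a b).le (Psi_bd hp (Fb_cs hL0 b hv)).1
  unfold PS
  refine ⟨mul_nonneg (by positivity) (integral_nonneg h0), ?_⟩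
  obtain ⟨G, hG⟩ : ∃ G : ℝ × E3 → ℝ, G = fun p => ph L a p.1 * (Fb L p.1 v p.2) ^ 2 := ⟨_, rfl⟩
  have hGc : Continuous G := by
    rw [hG]
    unfold Fb
    have h1 : Continuous (fun p : ℝ × E3 => cb L p.1 p.2) := Pool.Agent.H16.TQ.cb_cont
    have h2 : Continuous (fun p : ℝ × E3 => sO v p.2) := hO.sm.continuous.comp continuous_snd
    have h3 : Continuous (fun p : ℝ × E3 => ph L a p.1) := (ph_smooth L a).continuous.comp continuous_fst
    exact h3.mul ((h1.mul h2).pow 2)
  have hGe : ∀ b x, G (b, x) = (ph L a b * cb L b x ^ 2) * sO v x ^ 2 := fun b x => by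
    rw [hG]
    unfold Fb
    ring
  have hG0 : ∀ p, 0 ≤ G p := fun p => by
    rw [hG]
    exact mul_nonneg (ph_pos L a _).le (sq_nonneg _)
  have i1 : ∀ x, Integrable (fun b => G (b, x)) := fun x => by
    simp only [hGe]
    exact (cb_sum hL a x).1.mul_const _
  have e1 : ∀ x, ∫ b, G (b, x) = (∫ b, ph L a b * cb L b x ^ 2) * sO v x ^ 2 := fun x => by
    simp only [hGe]
    rw [integral_mul_const]
  have e2 : ∀ x, ∫ b, G (b, x) ≤ 36 * L * (A1 L a x * sO v x ^ 2) := fun x => by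
    rw [e1]
    have := mul_le_mul_of_nonneg_right (cb_sum hL a x).2 (sq_nonneg (sO v x))
    linarith
  have iO := D_I1 hL a hO
  have iO' : Integrable (fun x => 36 * L * (A1 L a x * sO v x ^ 2)) := iO.const_mul _
  have e0 : ∀ x, 0 ≤ ∫ b, G (b, x) := fun x => integral_nonneg fun b => hG0 _
  have i2 : Integrable (fun x => ∫ b, ‖G (b, x)‖) := by
    have h1 : (fun x => ∫ b, ‖G (b, x)‖) = fun x => ∫ b, G (b, x) := by
      funext x
      refine integral_congr_ae (Eventually.of_forall fun b => ?_)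
      exact Real.norm_of_nonneg (hG0 _)
    rw [h1]
    refine iO'.mono' ?_ (Eventually.of_forall fun x => ?_)
    · exact (hGc.comp continuous_swap).aestronglyMeasurable.integral_prod_right'
    · rw [Real.norm_eq_abs, abs_of_nonneg (e0 x)]
      exact e2 x
  have hGi : Integrable G (volume.prod volume) :=
    (integrable_prod_iff' hGc.aestronglyMeasurable).2 ⟨Eventually.of_forall i1, i2⟩
  have i3 : Integrable (fun b => ∫ x, G (b, x)) := hGi.integral_prod_left
  have e3 : ∀ b, ph L a b * Psi m r2 m0 (Fb L b v) ≤ 1 / 2 * ∫ x, G (b, x) := fun b => by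
    have h1 := (Psi_bd hp (Fb_cs hL0 b hv)).2
    have h2 : ∫ x, G (b, x) = ph L a b * ∫ x, Fb L b v x ^ 2 := by
      rw [hG, ← integral_const_mul]
    rw [h2]
    have := mul_le_mul_of_nonneg_left h1 (ph_pos L a b).le
    linarith
  have e4 := integral_mono_of_nonneg (Eventually.of_forall h0) (i3.const_mul (1 / 2)) (Eventually.of_forall e3)
  rw [integral_const_mul] at e4
  have e5 : ∫ b, ∫ x, G (b, x) = ∫ x, ∫ b, G (b, x) := integral_integral_swap hGi
  have e6 : ∫ x, ∫ b, G (b, x) ≤ ∫ x, 36 * L * (A1 L a x * sO v x ^ 2) :=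
    integral_mono_of_nonneg (Eventually.of_forall e0) iO' (Eventually.of_forall e2)
  rw [integral_const_mul] at e6
  have e7 : ∫ b, ph L a b * Psi m r2 m0 (Fb L b v) ≤ 18 * L * NO L a v := by
    unfold NO
    rw [e5] at e4
    linarith
  calc 1 / L * ∫ b, ph L a b * Psi m r2 m0 (Fb L b v) ≤ 1 / L * (18 * L * NO L a v) :=
        mul_le_mul_of_nonneg_left e7 (by positivity)
    _ = 18 * NO L a v := by field_simp

/-- The parameters are admissible. -/
theorem pr_of {cm κ L : ℝ} (hc : 0 < cm) (hκ : 1 ≤ κ) (hL : 1 ≤ L) :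
    Pool.Agent.H16.TQ.Pr (cm / √(Sc κ)) (rz κ) (mz κ L) := by
  have h1 : 0 < Sc κ := by
    unfold Sc
    have := Real.log_nonneg hκ
    linarith
  have h2 : 0 < κ := by linarith
  have h3 : 0 < L := by linarith
  refine ⟨div_pos hc (Real.sqrt_pos.2 h1), ?_, ?_, ?_⟩
  · unfold rz
    positivity
  · unfold mz
    positivity
  · unfold mz
    refine inv_le_one_of_one_le₀ (one_le_pow₀ ?_)
    nlinarith

theorem qpos {cm dl : ℝ} (hc : 0 < cm) (hd : 0 ≤ dl) (hd1 : dl ≤ 1 / 72) :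
    Pool.Agent.H67.TQ.QPos (fun κ L a v => PS (cm / √(Sc κ)) (rz κ) (mz κ L) L a v) dl := by
  intro κ L a v hv hκ hL
  have h := PS_bd (pr_of hc hκ hL) hL a hv
  refine ⟨mul_nonneg hd h.1, ?_⟩
  have h1 := mul_le_mul_of_nonneg_left h.2 hd
  have h2 : 0 ≤ NO L a v := h.1.trans h.2 |> fun h3 => by linarith
  have h3 : dl * (18 * NO L a v) ≤ 1 / 72 * (18 * NO L a v) := mul_le_mul_of_nonneg_right hd1 (by linarith)
  linarith

end Pool.Agent.H94.TQ
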