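import Pool.Agent.H16.TQ.Ei
import Pool.Agent.H94.TQ.Pos

/-!
MP_09540e_TQ, B0: the derivative `dPsi` of the functional: integrability over the plane, linearity, bounds.
-/

set_option autoImplicit false

open Set Filter Topology MeasureTheory
open scoped ContDiff InnerProductSpace

namespace Pool.Agent.H94.TQ

open Pool.Agent.H16 Pool.Agent.H87.NS Pool.Agent.H72.CC Pool.Agent.H16.TU Pool.Agent.H94.EP Pool.Agent.H87.EP
open Pool.Agent.H42.TQ
open Pool.Agent.H16.TQ (Pr Ei dEi Ei_nn Ei_le ei_i di_i dEi_add dEi_smul dEi_tend Ei_tend cmu_pos sq2_nn rho_int rho_nn' rho_ii Pc_ct ec_ct wi)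

variable {m r2 m0 : ℝ}

/-- Continuous functions on the plane vanishing far away are integrable. -/
theorem pl_int {k : ℝ × ℝ → ℝ} (hk : Continuous k) {A : ℝ} (hA : ∀ q, A ≤ sq2 q → k q = 0) : Integrable k := by
  refine hk.integrable_of_hasCompactSupport (HasCompactSupport.intro (isCompact_closedBall (0 : ℝ × ℝ) (|A| + 1)) fun q hq => hA q ?_)
  by_contra h
  have h7 : sq2 q < A := not_le.1 h
  apply hq
  rw [mem_closedBall_zero_iff, Prod.norm_def]
  have h8 : |A| = A := abs_of_nonneg ((sq2_nn q).trans h7.le)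
  have h9 : 0 ≤ A := (sq2_nn q).trans h7.le
  unfold sq2 at h7
  refine max_le ?_ ?_
  · refine le_of_sq_le_sq ?_ (by positivity)
    rw [Real.norm_eq_abs, sq_abs, h8]
    nlinarith [sq_nonneg q.2]
  · refine le_of_sq_le_sq ?_ (by positivity)
    rw [Real.norm_eq_abs, sq_abs, h8]
    nlinarith [sq_nonneg q.1]

theorem dPsi_eq (F G : E3 → ℝ) : dPsi m r2 m0 F G = ∫ q : ℝ × ℝ, dEi m r2 m0 q (fib F q) (fib G q) := rfl

/-- Continuity of the density over the plane. -/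
theorem dPsi_ct (hp : Pr m r2 m0) {F G : E3 → ℝ} (hF : Cs F) (hG : Cs G) :
    Continuous fun q : ℝ × ℝ => dEi m r2 m0 q (fib F q) (fib G q) :=
  continuous_iff_continuousAt.2 fun q => dEi_tend pf hp tendsto_id ((fib_cont hF).tendsto q) ((fib_cont hG).tendsto q)

theorem dPsi_int (hp : Pr m r2 m0) {F G : E3 → ℝ} (hF : Cs F) (hG : Cs G) :
    Integrable fun q : ℝ × ℝ => dEi m r2 m0 q (fib F q) (fib G q) := by
  obtain ⟨A, hA⟩ := fib_out hG
  refine pl_int (dPsi_ct hp hF hG) (A := A) fun q hq => ?_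
  have h := (di_i pf hp q (fib F q) (fib G q)).2
  rw [hA q hq, norm_zero, mul_zero] at h
  rw [hA q hq]
  exact abs_eq_zero.1 (le_antisymm h (abs_nonneg _))

theorem nn_int {F G : E3 → ℝ} (hF : Cs F) (hG : Cs G) : Integrable fun q : ℝ × ℝ => ‖fib F q‖ * ‖fib G q‖ := by
  obtain ⟨A, hA⟩ := fib_out hG
  refine pl_int ((fib_cont hF).norm.mul (fib_cont hG).norm) (A := A) fun q hq => ?_
  rw [hA q hq, norm_zero, mul_zero]

theorem dPsi_add (hp : Pr m r2 m0) {F G H : E3 → ℝ} (hF : Cs F) (hG : Cs G) (hH : Cs H) :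
    dPsi m r2 m0 F (fun x => G x + H x) = dPsi m r2 m0 F G + dPsi m r2 m0 F H := by
  rw [dPsi_eq, dPsi_eq, dPsi_eq, ← integral_add (dPsi_int hp hF hG) (dPsi_int hp hF hH)]
  refine integral_congr_ae (Eventually.of_forall fun q => ?_)
  simp only
  rw [fib_add hG hH, dEi_add pf hp]

theorem dPsi_smul {F G : E3 → ℝ} (c : ℝ) (hG : Cs G) : dPsi m r2 m0 F (fun x => c * G x) = c * dPsi m r2 m0 F G := by
  rw [dPsi_eq, dPsi_eq, ← integral_const_mul]
  refine integral_congr_ae (Eventually.of_forall fun q => ?_)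
  simp only
  rw [fib_smul c hG, dEi_smul]

theorem dPsi_neg {F G : E3 → ℝ} (hG : Cs G) : dPsi m r2 m0 F (fun x => - G x) = - dPsi m r2 m0 F G := by
  have h := dPsi_smul (m := m) (r2 := r2) (m0 := m0) (F := F) (-1) hG
  simpa using h

theorem dPsi_sub (hp : Pr m r2 m0) {F G H : E3 → ℝ} (hF : Cs F) (hG : Cs G) (hH : Cs H) :
    dPsi m r2 m0 F (fun x => G x - H x) = dPsi m r2 m0 F G - dPsi m r2 m0 F H := by
  have hH' : Cs (fun x => - H x) := by
    have := Cs.smul (-1) hH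
    simpa using this
  have h := dPsi_add hp hF hG hH'
  rw [dPsi_neg hH] at h
  simpa [sub_eq_add_neg] using h

theorem dPsi_abs (hp : Pr m r2 m0) {F G : E3 → ℝ} (hF : Cs F) (hG : Cs G) :
    |dPsi m r2 m0 F G| ≤ ∫ q : ℝ × ℝ, ‖fib F q‖ * ‖fib G q‖ := by
  rw [dPsi_eq]
  refine abs_integral_le_integral_abs.trans ?_
  refine integral_mono (dPsi_int hp hF hG).abs (nn_int hF hG) fun q => ?_
  exact (di_i pf hp q (fib F q) (fib G q)).2

/-- One fibre: a bound from above with a nonnegative majorant for each parameter. -/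
theorem dEi_le (hp : Pr m r2 m0) (q : ℝ × ℝ) (f g : Hz) {k : ℝ} (hk : 0 ≤ k)
    (h : ∀ μ, 0 < μ → μ ≤ 1 → ⟪Pc (cmu m r2 μ q) f, g⟫_ℝ ≤ k) : dEi m r2 m0 q f g ≤ k := by
  have h1 : dEi m r2 m0 q f g ≤ ∫ μ in (0:ℝ)..1, rho m0 μ / μ * k := by
    refine intervalIntegral.integral_mono_on zero_le_one (di_i pf hp q f g).1 ((rho_ii hp.z hp.o).mul_const k) fun μ hμ => ?_
    rcases eq_or_lt_of_le hμ.1 with h0 | h0
    · rw [← h0]; simp
    · exact mul_le_mul_of_nonneg_left (h μ h0 hμ.2) (rho_nn' hp.z hp.o hμ.1)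
  rw [intervalIntegral.integral_mul_const] at h1
  exact h1.trans (mul_le_of_le_one_left hk (rho_int hp.z hp.o))

/-- A bound from above, with majorants proportional to the parameter. -/
theorem dEi_le_mu (hp : Pr m r2 m0) (q : ℝ × ℝ) (f g : Hz) {k : ℝ}
    (h : ∀ μ, 0 < μ → μ ≤ 1 → ⟪Pc (cmu m r2 μ q) f, g⟫_ℝ ≤ μ * k) :
    dEi m r2 m0 q f g ≤ (∫ μ in (0:ℝ)..1, rho m0 μ) * k := by
  have hi : IntervalIntegrable (rho m0) volume 0 1 := by
    have : Continuous (rho m0) := by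
      unfold rho
      fun_prop
    exact this.intervalIntegrable _ _
  rw [← intervalIntegral.integral_mul_const]
  refine intervalIntegral.integral_mono_on zero_le_one (di_i pf hp q f g).1 (hi.mul_const k) fun μ hμ => ?_
  rcases eq_or_lt_of_le hμ.1 with h0 | h0
  · rw [← h0]
    have : rho m0 0 = 0 := by
      unfold rho
      simp
    rw [this]
    simp
  · have h1 := mul_le_mul_of_nonneg_left (h μ h0 hμ.2) (rho_nn' (m0 := m0) hp.z hp.o hμ.1)
    have h2 : rho m0 μ / μ * (μ * k) = rho m0 μ * k := by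
      field_simp
    rwa [h2] at h1

/-- The mass of the density. -/
theorem rho_mass (h0 : 0 < m0) (h1 : m0 < 1) : ∫ μ in (0:ℝ)..1, rho m0 μ ≤ 1 / Real.log (1 / m0) := by
  have hl := Pool.Agent.H16.TQ.log_inv_nn h0 h1.le
  have hl' : 0 < Real.log (1 / m0) := Real.log_pos (by rw [lt_div_iff₀ h0]; linarith)
  have hc : Continuous (rho m0) := by
    unfold rho
    fun_prop
  have h2 : ∫ μ in (0:ℝ)..1, rho m0 μ ≤ ∫ μ in (0:ℝ)..1, 1 / Real.log (1 / m0) := by
    refine intervalIntegral.integral_mono_on zero_le_one (hc.intervalIntegrable _ _) intervalIntegrable_const fun μ hμ => ?_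
    unfold rho
    refine div_le_div_of_nonneg_right ?_ hl
    have a1 : max (1 - μ) 0 ≤ 1 := max_le (by linarith [hμ.1]) (by norm_num)
    have a2 : (0:ℝ) ≤ max (1 - μ) 0 := le_max_right _ _
    have a3 : (0:ℝ) ≤ max (1 - μ / m0) 0 ^ 3 := pow_nonneg (le_max_right _ _) 3
    have a4 : max (1 - μ) 0 ^ 3 ≤ 1 := pow_le_one₀ a2 a1
    linarith
  refine h2.trans (le_of_eq ?_)
  simp

/-- From fibres to `dPsi`. -/
theorem dPsi_le (hp : Pr m r2 m0) {F G : E3 → ℝ} (hF : Cs F) (hG : Cs G) {k : ℝ × ℝ → ℝ} (hk : Integrable k)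
    (h : ∀ q, dEi m r2 m0 q (fib F q) (fib G q) ≤ k q) : dPsi m r2 m0 F G ≤ ∫ q, k q := by
  rw [dPsi_eq]
  exact integral_mono (dPsi_int hp hF hG) hk h

/-- Continuity of the projection at fixed parameter over the plane. -/
theorem Pq_ct (hp : Pr m r2 m0) {μ : ℝ} (hμ : 0 < μ) {F : E3 → ℝ} (hF : Cs F) :
    Continuous fun q : ℝ × ℝ => Pc (cmu m r2 μ q) (fib F q) := by
  have h1 : Continuous fun q : ℝ × ℝ => (cmu m r2 μ q, fib F q) := by
    refine Continuous.prodMk ?_ (fib_cont hF)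
    exact (Pool.Agent.H16.TQ.cmu_cont hp).comp (by fun_prop : Continuous fun q : ℝ × ℝ => (μ, q))
  rw [← continuousOn_univ]
  exact Pc_cont.comp h1.continuousOn fun q _ => ⟨cmu_pos hp hμ q, trivial⟩

/-- The exchange of the integrals. -/
theorem dPsi_fub (hp : Pr m r2 m0) {F G : E3 → ℝ} (hF : Cs F) (hG : Cs G) :
    IntervalIntegrable (fun μ => rho m0 μ / μ * ∫ q : ℝ × ℝ, ⟪Pc (cmu m r2 μ q) (fib F q), fib G q⟫_ℝ) volume 0 1 ∧
    dPsi m r2 m0 F G = ∫ μ in (0:ℝ)..1, rho m0 μ / μ * ∫ q : ℝ × ℝ, ⟪Pc (cmu m r2 μ q) (fib F q), fib G q⟫_ℝ := by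
  obtain ⟨K, hK⟩ : ∃ K, K = fun p : (ℝ × ℝ) × ℝ => rho m0 p.2 / p.2 * ⟪Pc (cmu m r2 p.2 p.1) (fib F p.1), fib G p.1⟫_ℝ := ⟨_, rfl⟩
  have hKc : ContinuousOn K (univ ×ˢ Ioi (0:ℝ)) := by
    rw [hK]
    have h1 : ContinuousOn (fun p : (ℝ × ℝ) × ℝ => rho m0 p.2 / p.2) (univ ×ˢ Ioi (0:ℝ)) := by
      have : Continuous (rho m0) := by
        unfold rho
        fun_prop
      exact (this.comp continuous_snd).continuousOn.div continuousOn_snd fun p hp' => (ne_of_gt hp'.2)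
    refine h1.mul ?_
    have h2 : ContinuousOn (fun p : (ℝ × ℝ) × ℝ => Pc (cmu m r2 p.2 p.1) (fib F p.1)) (univ ×ˢ Ioi (0:ℝ)) := by
      refine Pc_cont.comp (f := fun p : (ℝ × ℝ) × ℝ => (cmu m r2 p.2 p.1, fib F p.1)) ?_ fun p hp' => ⟨cmu_pos hp hp'.2 p.1, trivial⟩
      refine Continuous.continuousOn (Continuous.prodMk ?_ ((fib_cont hF).comp continuous_fst))
      exact (Pool.Agent.H16.TQ.cmu_cont hp).comp (by fun_prop : Continuous fun p : (ℝ × ℝ) × ℝ => (p.2, p.1))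
    exact h2.inner (𝕜 := ℝ) ((fib_cont hG).comp continuous_fst).continuousOn
  have hmeas : AEStronglyMeasurable K (volume.prod (volume.restrict (Ioc (0:ℝ) 1))) := by
    have h1 : AEStronglyMeasurable K ((volume.prod volume).restrict (univ ×ˢ Ioc (0:ℝ) 1)) :=
      (hKc.mono (prod_mono_right Ioc_subset_Ioi_self)).aestronglyMeasurable (MeasurableSet.univ.prod measurableSet_Ioc)
    rwa [← Measure.prod_restrict, Measure.restrict_univ] at h1
  have hdom : Integrable (fun p : (ℝ × ℝ) × ℝ => (‖fib F p.1‖ * ‖fib G p.1‖) * (3 / m0 / Real.log (1 / m0)))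
      (volume.prod (volume.restrict (Ioc (0:ℝ) 1))) :=
    Integrable.mul_prod (μ := (volume : Measure (ℝ × ℝ))) (ν := volume.restrict (Ioc (0:ℝ) 1)) (nn_int hF hG)
      (integrable_const (3 / m0 / Real.log (1 / m0)))
  have hb : ∀ᵐ p ∂(volume.prod (volume.restrict (Ioc (0:ℝ) 1)) : Measure ((ℝ × ℝ) × ℝ)),
      ‖K p‖ ≤ (‖fib F p.1‖ * ‖fib G p.1‖) * (3 / m0 / Real.log (1 / m0)) := by
    have h1 : ∀ᵐ p ∂(volume.prod (volume.restrict (Ioc (0:ℝ) 1)) : Measure ((ℝ × ℝ) × ℝ)), p.2 ∈ Ioc (0:ℝ) 1 := by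
      have h2 : (volume.prod (volume.restrict (Ioc (0:ℝ) 1)) : Measure ((ℝ × ℝ) × ℝ)) =
          (volume.prod volume).restrict (univ ×ˢ Ioc (0:ℝ) 1) := by
        rw [← Measure.prod_restrict, Measure.restrict_univ]
      rw [h2]
      filter_upwards [ae_restrict_mem (MeasurableSet.univ.prod measurableSet_Ioc)] with p hp'
      exact hp'.2
    filter_upwards [h1] with p hp'
    rw [hK]
    simp only
    rw [Real.norm_eq_abs, abs_mul, mul_comm]
    refine mul_le_mul ?_ (Pool.Agent.H16.TQ.rho_abs hp.z hp.o hp'.1) (abs_nonneg _) (by positivity)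
    exact (abs_real_inner_le_norm _ _).trans
      (mul_le_mul_of_nonneg_right (Pc_norm (cmu_pos hp hp'.1 p.1).le _) (norm_nonneg _))
  have hKi : Integrable K (volume.prod (volume.restrict (Ioc (0:ℝ) 1))) := hdom.mono' hmeas hb
  have e1 : dPsi m r2 m0 F G = ∫ q : ℝ × ℝ, ∫ μ, K (q, μ) ∂(volume.restrict (Ioc (0:ℝ) 1)) := by
    unfold dPsi
    refine integral_congr_ae (Eventually.of_forall fun q => ?_)
    simp only
    rw [intervalIntegral.integral_of_le zero_le_one, hK]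
  have e2 : ∀ μ, rho m0 μ / μ * ∫ q : ℝ × ℝ, ⟪Pc (cmu m r2 μ q) (fib F q), fib G q⟫_ℝ = ∫ q : ℝ × ℝ, K (q, μ) := fun μ => by
    rw [hK]
    exact (integral_const_mul _ _).symm
  constructor
  · rw [intervalIntegrable_iff_integrableOn_Ioc_of_le zero_le_one]
    have := hKi.integral_prod_right
    simp only [e2]
    exact this
  · rw [e1, intervalIntegral.integral_of_le zero_le_one]
    simp only [e2]
    exact integral_integral_swap hKi

/-- From the plane at fixed parameter to `dPsi`: bounds of the form `μ * k1 + k2`. -/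
theorem dPsi_le_mu (hp : Pr m r2 m0) (h1 : m0 < 1) {F G : E3 → ℝ} (hF : Cs F) (hG : Cs G) {k1 k2 : ℝ} (hk1 : 0 ≤ k1) (hk2 : 0 ≤ k2)
    (h : ∀ μ, 0 < μ → μ ≤ 1 → ∫ q : ℝ × ℝ, ⟪Pc (cmu m r2 μ q) (fib F q), fib G q⟫_ℝ ≤ μ * k1 + k2) :
    dPsi m r2 m0 F G ≤ k1 / Real.log (1 / m0) + k2 := by
  obtain ⟨hi, he⟩ := dPsi_fub hp hF hG
  have hc : Continuous (rho m0) := by
    unfold rho
    fun_prop
  have hci : IntervalIntegrable (rho m0) volume 0 1 := hc.intervalIntegrable _ _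
  have h2 : dPsi m r2 m0 F G ≤ ∫ μ in (0:ℝ)..1, (rho m0 μ * k1 + rho m0 μ / μ * k2) := by
    rw [he]
    refine intervalIntegral.integral_mono_on zero_le_one hi ((hci.mul_const k1).add ((rho_ii hp.z hp.o).mul_const k2)) fun μ hμ => ?_
    rcases eq_or_lt_of_le hμ.1 with h0 | h0
    · rw [← h0]
      have : rho m0 0 = 0 := by
        unfold rho
        simp
      rw [this]
      simp
    · have h3 := mul_le_mul_of_nonneg_left (h μ h0 hμ.2) (rho_nn' (m0 := m0) hp.z hp.o hμ.1)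
      have h4 : rho m0 μ / μ * (μ * k1 + k2) = rho m0 μ * k1 + rho m0 μ / μ * k2 := by
        field_simp
      rwa [h4] at h3
  rw [intervalIntegral.integral_add (hci.mul_const k1) ((rho_ii hp.z hp.o).mul_const k2), intervalIntegral.integral_mul_const,
    intervalIntegral.integral_mul_const] at h2
  have h5 := mul_le_mul_of_nonneg_right (rho_mass hp.z h1) hk1
  have h6 := mul_le_mul_of_nonneg_right (rho_int hp.z hp.o) hk2
  have h7 : 1 / Real.log (1 / m0) * k1 = k1 / Real.log (1 / m0) := by ring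
  linarith

end Pool.Agent.H94.TQ
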