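import Pool.Agent.H94.EP.CoA
import Pool.Agent.H94.EP.CoK
import Pool.Agent.H16.TU.Ed
import Pool.Agent.H87.EP.I
import Pool.Agent.H87.NS.FlowOf

/-! The criterion at one scale, with the exponent 3/4 (MP_09540e_TQ). -/

set_option autoImplicit false

open Set Filter Topology MeasureTheory
open scoped ContDiff

namespace Pool.Agent.H94.TQ

open Pool.Agent.H16 Pool.Agent.H87.NS Pool.Agent.H72.CC Pool.Agent.H16.TU Pool.Agent.H94.EP

private theorem CoE_axp0 : axp 0 = (0 : E3) := by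
  apply ext3 <;> simp [axp]

private theorem CoE_rad_smul {r : ℝ} (hr : 0 ≤ r) (x : E3) : rad (r • x) = r * rad x := by
  unfold rad
  have h0 : (r • x : E3) 0 = r * x 0 := rfl
  have h1 : (r • x : E3) 1 = r * x 1 := rfl
  rw [h0, h1, show (r * x 0) ^ 2 + (r * x 1) ^ 2 = r ^ 2 * (x 0 ^ 2 + x 1 ^ 2) by ring,
    Real.sqrt_mul (sq_nonneg r), Real.sqrt_sq hr]

private theorem CoE_rad_nonneg (x : E3) : 0 ≤ rad x := Real.sqrt_nonneg _

/-- one scale -/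
private theorem CoE_one {K' ε' C : ℝ} {T : ℝ} {u : ℝ → E3 → E3} {p : ℝ → E3 → ℝ} (h : IsHInfAxisymNS T u p) {t₀ : ℝ}
    (ht₀ : t₀ ∈ Ico 0 T)
    (hcore : ∀ (T : ℝ) (u : ℝ → E3 → E3) (p : ℝ → E3 → ℝ), IsHInfAxisymNS T u p → ∀ t₀ ∈ Ico 0 T,
      (∀ t ∈ Ico t₀ T, ∀ x, rad x < 1 → |circ (u t) x| ≤ ε') →
      (∀ t ∈ Ico t₀ T, ∀ z, ∫ x in Metric.ball (axp z) 1, ‖u t x‖ ^ 2 ≤ K') →
      (∀ s t : ℝ, t₀ ≤ s → s ≤ t → t < T → t ≤ s + 1 → ∀ z, ∫ r in s..t, ∫ x in Metric.ball (axp z) 1, gv (u r) x ≤ K') →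
      (∀ x, rad x < 1 → |sV (u t₀) x| ≤ ε' * K' ^ 7) → (∀ a, NJ (K' ^ 8) a (u t₀) + NO (K' ^ 8) a (u t₀) ≤ K' ^ 11) →
      ∀ t ∈ Ico t₀ T, ∀ x, rad x < 1 → |circ (u t) x| ≤ C * rad x)
    {r M : ℝ} (hr : 0 < r)
    (h1 : ∀ t ∈ Ico t₀ T, ∀ x, rad x < r → |circ (u t) x| ≤ ε')
    (h2 : ∀ t ∈ Ico t₀ T, ∀ z, ∫ x in Metric.ball (axp z) r, ‖u t x‖ ^ 2 ≤ M * r)
    (h3 : ∀ s t : ℝ, t₀ ≤ s → s ≤ t → t < T → t ≤ s + r ^ 2 → ∀ z,
      ∫ τ in s..t, ∫ x in Metric.ball (axp z) r, gv (u τ) x ≤ M * r)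
    (hM : M ≤ K') (hB : ∀ x, rad x < r → r ^ 2 * |sV (u t₀) x| ≤ ε' * K' ^ 7)
    (hN : ∀ a, NJ (K' ^ 8) a (scl r (u t₀)) + NO (K' ^ 8) a (scl r (u t₀)) ≤ K' ^ 11) :
    ∀ t ∈ Ico t₀ T, ∀ x, rad x < r → |circ (u t) x| ≤ C / r * rad x := by
  have hr2 : 0 < r ^ 2 := pow_pos hr 2
  have hr3 : 0 < r ^ 3 := pow_pos hr 3
  have hs := sc_h (z := 0) h hr
  have hmem : ∀ t, t ∈ Ico (t₀ / r ^ 2) (T / r ^ 2) → r ^ 2 * t ∈ Ico t₀ T := by
    intro t ht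
    have e1 := ht.1
    have e2 := ht.2
    rw [div_le_iff₀ hr2] at e1
    rw [lt_div_iff₀ hr2] at e2
    exact ⟨by linarith, by linarith⟩
  have ht0 : t₀ / r ^ 2 ∈ Ico 0 (T / r ^ 2) :=
    ⟨div_nonneg ht₀.1 hr2.le, div_lt_div_of_pos_right ht₀.2 hr2⟩
  have hsm : ∀ t ∈ Ico 0 T, ContDiff ℝ ∞ (u t) := fun t ht => (axF_of h.ns ht).smooth
  have hX : ∀ x : E3, axp 0 + r • x = r • x := fun x => by rw [CoE_axp0, zero_add]
  have hcirc : ∀ t x, circ (us r 0 u t) x = circ (u (r ^ 2 * t)) (r • x) := by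
    intro t x
    rw [us_scl, sc_circ]
  have key := hcore (T / r ^ 2) (us r 0 u) (psc r 0 p) hs (t₀ / r ^ 2) ht0 ?_ ?_ ?_ ?_ ?_
  · intro t ht x hx
    have e1 : t / r ^ 2 ∈ Ico (t₀ / r ^ 2) (T / r ^ 2) :=
      ⟨div_le_div_of_nonneg_right ht.1 hr2.le, div_lt_div_of_pos_right ht.2 hr2⟩
    have e2 : rad (r⁻¹ • x) = r⁻¹ * rad x := CoE_rad_smul (inv_pos.2 hr).le x
    have e3 : rad (r⁻¹ • x) < 1 := by
      rw [e2, inv_mul_lt_iff₀ hr, mul_one]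
      exact hx
    have e4 := key (t / r ^ 2) e1 (r⁻¹ • x) e3
    rw [hcirc, mul_div_cancel₀ t hr2.ne', smul_smul, mul_inv_cancel₀ hr.ne', one_smul, e2] at e4
    rw [div_mul_eq_mul_div, div_eq_mul_inv, mul_assoc, mul_comm (rad x)]
    exact e4
  · intro t ht x hx
    rw [hcirc]
    refine h1 _ (hmem t ht) _ ?_
    rw [CoE_rad_smul hr.le]
    calc r * rad x < r * 1 := mul_lt_mul_of_pos_left hx hr
      _ = r := mul_one r
  · intro t ht z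
    have e1 : (fun x : E3 => ‖us r 0 u t x‖ ^ 2) = fun x => r ^ 2 * (fun y => ‖u (r ^ 2 * t) y‖ ^ 2) (r • x) := by
      funext x
      simp only [us]
      rw [hX, norm_smul, Real.norm_eq_abs, abs_of_pos hr, mul_pow]
    rw [e1, integral_const_mul, sc_ball hr (fun y => ‖u (r ^ 2 * t) y‖ ^ 2) z]
    refine le_trans ?_ hM
    have e2 := h2 _ (hmem t ht) (r * z)
    calc r ^ 2 * ((r ^ 3)⁻¹ * ∫ x in Metric.ball (axp (r * z)) r, ‖u (r ^ 2 * t) x‖ ^ 2)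
        ≤ r ^ 2 * ((r ^ 3)⁻¹ * (M * r)) :=
          mul_le_mul_of_nonneg_left (mul_le_mul_of_nonneg_left e2 (inv_pos.2 hr3).le) hr2.le
      _ = M := by field_simp
  · intro s t hs0 hst htT hts z
    have e1 : ∀ τ ∈ uIcc s t, ∫ x in Metric.ball (axp z) 1, gv (us r 0 u τ) x =
        r * (fun τ' => ∫ x in Metric.ball (axp (r * z)) r, gv (u τ') x) (r ^ 2 * τ) := by
      intro τ hτ
      rw [uIcc_of_le hst] at hτ
      have e2 : r ^ 2 * τ ∈ Ico t₀ T := hmem τ ⟨hs0.trans hτ.1, lt_of_le_of_lt hτ.2 htT⟩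
      have e3 : (fun x : E3 => gv (us r 0 u τ) x) = fun x => r ^ 4 * gv (u (r ^ 2 * τ)) (r • x) := by
        funext x
        rw [us_scl, sc_gv (hsm _ ⟨ht₀.1.trans e2.1, e2.2⟩)]
      rw [e3, integral_const_mul, sc_ball hr (gv (u (r ^ 2 * τ))) z]
      simp only []
      field_simp
    rw [intervalIntegral.integral_congr e1, intervalIntegral.integral_const_mul,
      intervalIntegral.integral_comp_mul_left
        (fun τ' => ∫ x in Metric.ball (axp (r * z)) r, gv (u τ') x) hr2.ne', smul_eq_mul]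
    refine le_trans ?_ hM
    have f1 : t₀ ≤ r ^ 2 * s := (hmem s ⟨hs0, lt_of_le_of_lt hst htT⟩).1
    have f2 : r ^ 2 * s ≤ r ^ 2 * t := mul_le_mul_of_nonneg_left hst hr2.le
    have f3 : r ^ 2 * t < T := (hmem t ⟨hs0.trans hst, htT⟩).2
    have f4 : r ^ 2 * t ≤ r ^ 2 * s + r ^ 2 := by
      have := mul_le_mul_of_nonneg_left hts hr2.le
      linarith
    have e4 := h3 _ _ f1 f2 f3 f4 (r * z)
    calc r * ((r ^ 2)⁻¹ * ∫ τ in (r ^ 2 * s)..(r ^ 2 * t), ∫ x in Metric.ball (axp (r * z)) r, gv (u τ) x)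
        ≤ r * ((r ^ 2)⁻¹ * (M * r)) :=
          mul_le_mul_of_nonneg_left (mul_le_mul_of_nonneg_left e4 (inv_pos.2 hr2).le) hr.le
      _ = M := by field_simp
  · intro x hx
    rw [us_scl, mul_div_cancel₀ t₀ hr2.ne', sc_sV (hsm _ ht₀), abs_mul, abs_of_pos hr2]
    refine hB _ ?_
    rw [CoE_rad_smul hr.le]
    calc r * rad x < r * 1 := mul_lt_mul_of_pos_left hx hr
      _ = r := mul_one r
  · intro a
    rw [us_scl, mul_div_cancel₀ t₀ hr2.ne']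
    exact hN a

private theorem CoE_bm {c f : E3 → ℝ} (hc : Continuous c) (h1 : ∀ x, |c x| ≤ 1) (hf : Integrable f) :
    Integrable (fun x => c x * f x) := by
  refine hf.norm.mono' (hc.aestronglyMeasurable.mul hf.aestronglyMeasurable) (ae_of_all _ fun x => ?_)
  rw [norm_mul, Real.norm_eq_abs]
  exact mul_le_of_le_one_left (norm_nonneg _) (h1 x)

/-- The initial functionals. -/
private theorem CoE_init : ∃ C : ℝ, 1 ≤ C ∧ ∀ (T : ℝ) (u : ℝ → E3 → E3) (p : ℝ → E3 → ℝ), IsHInfAxisymNS T u p → ∀ t₀ ∈ Ico 0 T,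
    ∀ r K L a : ℝ, 0 < r → 1 ≤ L →
    (∀ z, r ^ 3 * ∫ x in Metric.ball (axp z) r, (Zz (u t₀) x ^ 2 + sO (u t₀) x ^ 2) ≤ K) →
    NJ L a (scl r (u t₀)) + NO L a (scl r (u t₀)) ≤ C * (L * K) := by
  obtain ⟨C, hC1, hC⟩ := Pool.Agent.H87.EP.en_ph
  refine ⟨C, hC1, ?_⟩
  intro T u p h t₀ ht₀ r K L a hr hL hz
  have hv : AxF (u t₀) := axF_of h.ns ht₀
  have hsm : ContDiff ℝ ∞ (u t₀) := hv.smooth
  obtain ⟨i1, i2⟩ := sq_int h ht₀
  have hr2 : 0 < r ^ 2 := pow_pos hr 2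
  have hr3 : 0 < r ^ 3 := pow_pos hr 3
  have hX : ∀ x : E3, axp 0 + r • x = r • x := fun x => by rw [CoE_axp0, zero_add]
  have hZc : Continuous (Zz (u t₀)) := by
    have h1 : Flow T u (fun t => sV (u t)) (fun t => sW (u t)) (fun t => sO (u t)) := flow_of h
    exact ((h1.evV.smooth t₀ ht₀).continuous_fderiv (by simp)).clm_apply continuous_const
  have hOc : Continuous (sO (u t₀)) := by
    have h1 : Flow T u (fun t => sV (u t)) (fun t => sW (u t)) (fun t => sO (u t)) := flow_of h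
    exact (h1.evO.smooth t₀ ht₀).continuous
  -- the vector field
  obtain ⟨w, hw⟩ : ∃ w : E3 → E3, w = fun x => !₂[r ^ 3 * Zz (u t₀) (r • x), r ^ 3 * sO (u t₀) (r • x), 0] := ⟨_, rfl⟩
  have hwn : ∀ x, ‖w x‖ ^ 2 = r ^ 6 * (Zz (u t₀) (r • x) ^ 2 + sO (u t₀) (r • x) ^ 2) := by
    intro x
    rw [hw, EuclideanSpace.norm_sq_eq, Fin.sum_univ_three]
    simp only [Real.norm_eq_abs, sq_abs]
    show (r ^ 3 * Zz (u t₀) (r • x)) ^ 2 + (r ^ 3 * sO (u t₀) (r • x)) ^ 2 + (0 : ℝ) ^ 2 = _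
    ring
  have hwc : Continuous w := by
    rw [hw]
    have c1 : Continuous (fun x : E3 => r ^ 3 * Zz (u t₀) (r • x)) := continuous_const.mul (hZc.comp (continuous_const_smul r))
    have c2 : Continuous (fun x : E3 => r ^ 3 * sO (u t₀) (r • x)) := continuous_const.mul (hOc.comp (continuous_const_smul r))
    refine (PiLp.continuous_toLp 2 (fun _ : Fin 3 => ℝ)).comp ?_
    refine continuous_pi fun i => ?_
    fin_cases i
    · exact c1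
    · exact c2
    · exact continuous_const
  have hwi : Integrable (fun x => ‖w x‖ ^ 2) := by
    simp only [hwn]
    have j1 : Integrable (fun x => Zz (u t₀) x ^ 2 + sO (u t₀) x ^ 2) := i1.add i2
    have j2 := Ed_integrable j1 (0 : E3) hr
    simp only [zero_add] at j2
    exact j2.const_mul _
  have hball : ∀ z, ∫ x in Metric.ball (axp z) 1, ‖w x‖ ^ 2 ≤ K := by
    intro z
    simp only [hwn]
    rw [integral_const_mul, sc_ball hr (fun x => Zz (u t₀) x ^ 2 + sO (u t₀) x ^ 2) z]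
    refine le_trans (le_of_eq ?_) (hz (r * z))
    field_simp
  have key := hC L K a w hL hwc hwi hball
  refine le_trans ?_ key
  -- the functionals
  have e1 : ∀ x, Zz (scl r (u t₀)) x ^ 2 = r ^ 6 * Zz (u t₀) (r • x) ^ 2 := fun x => by
    rw [sc_Zz hsm]; ring
  have e2 : ∀ x, sO (scl r (u t₀)) x ^ 2 = r ^ 6 * sO (u t₀) (r • x) ^ 2 := fun x => by
    rw [sc_sO hsm]; ring
  have hAc : Continuous (A1 L a) := (Pool.Agent.H87.EP.A1_ri hL a).sm.continuous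
  have hA1 : ∀ x, |A1 L a x| ≤ 1 := fun x => by
    rw [abs_of_nonneg (Pool.Agent.H87.EP.A1_nn L a x).1]
    exact (Pool.Agent.H87.EP.A1_nn L a x).2.trans (Pool.Agent.H87.EP.ph_le L a (x 2))
  have m1 : Integrable (fun x => A1 L a x * Zz (scl r (u t₀)) x ^ 2) := by
    simp only [e1]
    have j2 := Ed_integrable i1 (0 : E3) hr
    simp only [zero_add] at j2
    exact CoE_bm hAc hA1 (j2.const_mul _)
  have m2 : Integrable (fun x => A1 L a x * sO (scl r (u t₀)) x ^ 2) := by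
    simp only [e2]
    have j2 := Ed_integrable i2 (0 : E3) hr
    simp only [zero_add] at j2
    exact CoE_bm hAc hA1 (j2.const_mul _)
  have m3 : Integrable (fun x => ph L a (x 2) * ‖w x‖ ^ 2) := by
    refine CoE_bm (c := fun x : E3 => ph L a (x 2)) ?_ (fun x => ?_) hwi
    · exact (Pool.Agent.H87.EP.ph_smooth L a).continuous.comp (by fun_prop)
    · rw [abs_of_pos (Pool.Agent.H87.EP.ph_pos L a (x 2))]
      exact Pool.Agent.H87.EP.ph_le L a (x 2)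
  have hcut : ∀ x : E3, A1 L a x * (Zz (scl r (u t₀)) x ^ 2 + sO (scl r (u t₀)) x ^ 2) ≤
      {x : E3 | rsq x < 1 / 2}.indicator (fun x => ph L a (x 2) * ‖w x‖ ^ 2) x := by
    intro x
    rw [e1, e2, ← mul_add, ← hwn]
    by_cases hx : rsq x < 1 / 2
    · rw [indicator_of_mem (by exact hx)]
      exact mul_le_mul_of_nonneg_right (Pool.Agent.H87.EP.A1_nn L a x).2 (sq_nonneg _)
    · rw [indicator_of_notMem (by exact hx), Pool.Agent.H87.EP.A1_zero L a (not_lt.1 hx), zero_mul]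
  have hms : MeasurableSet {x : E3 | rsq x < 1 / 2} := by
    have : Continuous (rsq : E3 → ℝ) := by
      unfold rsq
      fun_prop
    exact (isOpen_lt this continuous_const).measurableSet
  rw [← integral_indicator hms]
  unfold NJ NO
  rw [← integral_add m1 m2]
  simp only [← mul_add]
  refine integral_mono ?_ (m3.indicator hms) hcut
  simp only [mul_add]
  exact m1.add m2

/-- The conclusion at scale one, with the exponent 3/4. -/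
def Core34 : Prop := ∃ c K₀ : ℝ, 0 < c ∧ 2 ≤ K₀ ∧ ∀ (K ε : ℝ), K₀ ≤ K → 0 < ε → ε ^ 4 * Real.log K ^ 3 ≤ c →
    ∃ C : ℝ, ∀ (T : ℝ) (u : ℝ → E3 → E3) (p : ℝ → E3 → ℝ), IsHInfAxisymNS T u p → ∀ t₀ ∈ Ico 0 T,
    (∀ t ∈ Ico t₀ T, ∀ x, rad x < 1 → |circ (u t) x| ≤ ε) →
    (∀ t ∈ Ico t₀ T, ∀ z, ∫ x in Metric.ball (axp z) 1, ‖u t x‖ ^ 2 ≤ K) →
    (∀ s t : ℝ, t₀ ≤ s → s ≤ t → t < T → t ≤ s + 1 → ∀ z, ∫ r in s..t, ∫ x in Metric.ball (axp z) 1, gv (u r) x ≤ K) →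
    (∀ x, rad x < 1 → |sV (u t₀) x| ≤ ε * K ^ 7) → (∀ a, NJ (K ^ 8) a (u t₀) + NO (K ^ 8) a (u t₀) ≤ K ^ 11) →
    ∀ t ∈ Ico t₀ T, ∀ x, rad x < 1 → |circ (u t) x| ≤ C * rad x

private theorem CoE_pow {x : ℝ} (hx : 0 ≤ x) : (x ^ (3 / 4 : ℝ)) ^ 4 = x ^ 3 := by
  rw [← Real.rpow_natCast (x ^ (3 / 4 : ℝ)) 4, ← Real.rpow_mul hx, ← Real.rpow_natCast x 3]
  norm_num

/-- **The criterion at one scale.** -/
theorem one34 (core34 : Core34) : ∃ c : ℝ, 0 < c ∧ ∀ (T : ℝ) (u : ℝ → E3 → E3) (p : ℝ → E3 → ℝ), IsHInfAxisymNS T u p → ∀ t₀ ∈ Ico 0 T,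
    ∀ r K : ℝ, 0 < r → 0 ≤ K →
    (∀ t ∈ Ico t₀ T, ∀ x, rad x < r → |circ (u t) x| ≤ c / Real.log (2 + K) ^ (3 / 4 : ℝ)) →
    (∀ t ∈ Ico t₀ T, ∀ z, ∫ x in Metric.ball (axp z) r, ‖u t x‖ ^ 2 ≤ K * r) →
    (∀ s t : ℝ, t₀ ≤ s → s ≤ t → t < T → t ≤ s + r ^ 2 → ∀ z, ∫ τ in s..t, ∫ x in Metric.ball (axp z) r, gv (u τ) x ≤ K * r) →
    (∀ x, rad x < r → r ^ 2 * |sV (u t₀) x| ≤ K) →
    (∀ z, r ^ 3 * ∫ x in Metric.ball (axp z) r, (Zz (u t₀) x ^ 2 + sO (u t₀) x ^ 2) ≤ K) →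
    ∃ C : ℝ, ∀ t ∈ Ico t₀ T, ∀ x, rad x < r → |circ (u t) x| ≤ C * rad x := by
  obtain ⟨c₀, K₀, hc₀, hK₀, hcore⟩ := core34
  obtain ⟨Ce, hCe, hinit⟩ := CoE_init
  obtain ⟨c₁, hc₁def⟩ : ∃ c₁ : ℝ, c₁ = c₀ ^ (1 / 4 : ℝ) := ⟨_, rfl⟩
  have hc₁ : 0 < c₁ := by rw [hc₁def]; exact Real.rpow_pos_of_pos hc₀ _
  have hc₁4 : c₁ ^ 4 = c₀ := by
    rw [hc₁def, ← Real.rpow_natCast (c₀ ^ (1 / 4 : ℝ)) 4, ← Real.rpow_mul hc₀.le]
    norm_num
  obtain ⟨K₁, hK₁⟩ : ∃ K₁ : ℝ, K₁ = K₀ + Ce + 1 / c₁ := ⟨_, rfl⟩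
  have hci : 0 < 1 / c₁ := by positivity
  have hK₁0 : K₀ ≤ K₁ := by linarith
  have hK₁2 : 2 ≤ K₁ := by linarith
  have hK₁e : Ce ≤ K₁ := by linarith
  have hK₁c : 1 / c₁ ≤ K₁ := by linarith
  have hl2 : 0 < Real.log 2 := Real.log_pos (by norm_num)
  have hlK : 0 ≤ Real.log K₁ := Real.log_nonneg (by linarith)
  have hm : 0 < Real.log K₁ / Real.log 2 + 1 := by positivity
  have hm4 : 0 < (Real.log K₁ / Real.log 2 + 1) ^ (3 / 4 : ℝ) := Real.rpow_pos_of_pos hm _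
  refine ⟨c₁ / (Real.log K₁ / Real.log 2 + 1) ^ (3 / 4 : ℝ), div_pos hc₁ hm4, ?_⟩
  intro T u p h t₀ ht₀ r K hr hK hΓ hen hdi hV hN
  have hK' : K₀ ≤ K₁ + K := by linarith
  have hK'2 : 2 ≤ K₁ + K := by linarith
  have hK'0 : 0 < K₁ + K := by linarith
  have hlog : 0 < Real.log (K₁ + K) := Real.log_pos (by linarith)
  have hlog2 : 0 < Real.log (2 + K) := Real.log_pos (by linarith)
  have hlog4 : 0 < Real.log (K₁ + K) ^ (3 / 4 : ℝ) := Real.rpow_pos_of_pos hlog _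
  have hlog24 : 0 < Real.log (2 + K) ^ (3 / 4 : ℝ) := Real.rpow_pos_of_pos hlog2 _
  have hε : 0 < c₁ / Real.log (K₁ + K) ^ (3 / 4 : ℝ) := div_pos hc₁ hlog4
  have hεl : (c₁ / Real.log (K₁ + K) ^ (3 / 4 : ℝ)) ^ 4 * Real.log (K₁ + K) ^ 3 ≤ c₀ := by
    rw [div_pow, CoE_pow hlog.le, hc₁4, div_mul_cancel₀ _ (pow_pos hlog 3).ne']
  obtain ⟨C, hC⟩ := hcore (K₁ + K) (c₁ / Real.log (K₁ + K) ^ (3 / 4 : ℝ)) hK' hε hεl
  refine ⟨C / r, CoE_one h ht₀ hC hr (M := K) ?_ hen hdi (by linarith only [hK₀, hCe, hK₁, hci]) ?_ ?_⟩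
  · intro t ht x hx
    refine (hΓ t ht x hx).trans ?_
    rw [div_div, ← Real.mul_rpow hm.le hlog2.le]
    refine div_le_div_of_nonneg_left hc₁.le hlog4 ?_
    refine Real.rpow_le_rpow hlog.le ?_ (by norm_num)
    have h2 : Real.log (K₁ + K) ≤ Real.log (K₁ * (2 + K)) := by
      apply Real.log_le_log hK'0
      nlinarith only [hK₀, hCe, hK₁, hci, hK]
    have h3 : Real.log (K₁ * (2 + K)) = Real.log K₁ + Real.log (2 + K) :=
      Real.log_mul (by linarith) (by linarith)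
    have h4 : Real.log 2 ≤ Real.log (2 + K) := Real.log_le_log (by norm_num) (by linarith only [hK])
    have h5 : Real.log K₁ ≤ Real.log K₁ / Real.log 2 * Real.log (2 + K) := by
      rw [div_mul_eq_mul_div, le_div_iff₀ hl2]
      exact mul_le_mul_of_nonneg_left h4 hlK
    rw [add_mul, one_mul]
    linarith
  · intro x hx
    refine (hV x hx).trans ?_
    have h0 : Real.log (K₁ + K) ^ (3 / 4 : ℝ) ≤ K₁ + K := by
      have e1 : Real.log (K₁ + K) ^ (3 / 4 : ℝ) ≤ (1 + Real.log (K₁ + K)) ^ (3 / 4 : ℝ) :=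
        Real.rpow_le_rpow hlog.le (by linarith) (by norm_num)
      have e2 : (1 + Real.log (K₁ + K)) ^ (3 / 4 : ℝ) ≤ (1 + Real.log (K₁ + K)) ^ (1 : ℝ) :=
        Real.rpow_le_rpow_of_exponent_le (by linarith only [hlog]) (by norm_num)
      rw [Real.rpow_one] at e2
      have e3 := Real.log_le_sub_one_of_pos hK'0
      linarith
    have h2 : (1 : ℝ) ≤ (K₁ + K) ^ 4 := one_le_pow₀ (by linarith only [hK₀, hCe, hK₁, hci, hK])
    have h3 : 1 ≤ c₁ * (K₁ + K) := by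
      have : c₁ * (1 / c₁) = 1 := by field_simp
      nlinarith only [hK₀, hCe, hc₁, hK₁, hK, this]
    rw [div_mul_eq_mul_div, le_div_iff₀ hlog4]
    calc K * Real.log (K₁ + K) ^ (3 / 4 : ℝ) ≤ (K₁ + K) * (K₁ + K) := by
          apply mul_le_mul (by linarith only [hK₀, hCe, hK₁, hci]) h0 hlog4.le hK'0.le
      _ = 1 * ((K₁ + K) ^ 2 * 1) := by ring
      _ ≤ (c₁ * (K₁ + K)) * ((K₁ + K) ^ 2 * (K₁ + K) ^ 4) := by
          apply mul_le_mul h3 _ (by positivity) (by positivity)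
          exact mul_le_mul_of_nonneg_left h2 (by positivity)
      _ = c₁ * (K₁ + K) ^ 7 := by ring
  · intro a
    have h1 : (1 : ℝ) ≤ (K₁ + K) ^ 8 := one_le_pow₀ (by linarith only [hK₀, hCe, hK₁, hci, hK])
    refine (hinit T u p h t₀ ht₀ r K ((K₁ + K) ^ 8) a hr h1 hN).trans ?_
    calc Ce * ((K₁ + K) ^ 8 * K) ≤ (K₁ + K) * ((K₁ + K) ^ 8 * (K₁ + K)) := by
          apply mul_le_mul (by linarith only [hK₀, hK₁, hci, hK]) _ (by positivity) hK'0.le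
          exact mul_le_mul_of_nonneg_left (by linarith) (by positivity)
      _ = (K₁ + K) ^ 10 * 1 := by ring
      _ ≤ (K₁ + K) ^ 10 * (K₁ + K) := mul_le_mul_of_nonneg_left (by linarith) (by positivity)
      _ = (K₁ + K) ^ 11 := by ring

end Pool.Agent.H94.TQ
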