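import Pool.Agent.H94.EP.CoP

/-! Exponent 3/4 (MP_09540e_TQ): the statements used by the assembly, as propositions. The new functional enters through
`NP κ L a v` (the modified `NO / 2`, that is `NO / 2 - dl * PS`) and its rate `RP κ L a v`. The assembly takes `κ = K ^ 14`, `L = K ^ 8`,
`θ = 1 / Sc κ`, `l = 1 / √(Sc κ)`. -/

set_option autoImplicit false

open Set Filter Topology MeasureTheory
open scoped ContDiff

namespace Pool.Agent.H94.TQ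

open Pool.Agent.H16 Pool.Agent.H87.NS Pool.Agent.H72.CC Pool.Agent.H16.TU Pool.Agent.H94.EP

/-- A functional of the slices, with the parameters `κ`, `L`, `a`. -/
abbrev Fn := ℝ → ℝ → ℝ → (E3 → E3) → ℝ

/-- The one-point functional of `O`, modified. -/
def Q1b (RP : Fn) : Prop := ∃ C : ℝ, 1 ≤ C ∧ ∀ (ε K κ L a : ℝ) (v : E3 → E3), Sl ε K κ v → (∀ b, NO L b v ≤ κ) → C * K ≤ L → L ≤ κ →
    C * (ε ^ 4 * Sc κ ^ 3) ≤ 1 →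
    RP κ L a v ≤ - (1 / C) * DO L a v + C * (ε ^ 2 * Sc κ) * (YY κ L a v + Sc κ * (DJ L a v + GG L a v)) +
      C * K ^ 2 * GG L a v + C * (L * K)

/-- Comparison of the modified functional with `NO`. -/
def Q1p (NP : Fn) : Prop := ∃ C : ℝ, 1 ≤ C ∧ ∀ (κ L a : ℝ) (v : E3 → E3), Vs v → 1 ≤ κ → C ≤ L → L ≤ κ →
    NO L a v / 4 ≤ NP κ L a v ∧ NP κ L a v ≤ NO L a v / 2

/-- Continuity in time. -/
def Q2c (NP RP : Fn) : Prop := ∀ (T : ℝ) (u : ℝ → E3 → E3) (p : ℝ → E3 → ℝ), IsHInfAxisymNS T u p → ∀ κ L a : ℝ, 1 ≤ κ → 1 ≤ L → L ≤ κ →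
    ContinuousOn (fun t => NP κ L a (u t)) (Ico 0 T) ∧ ContinuousOn (fun t => RP κ L a (u t)) (Ico 0 T)

/-- The energy inequality, modified. -/
def Q2 (NP RP : Fn) : Prop := ∀ (T : ℝ) (u : ℝ → E3 → E3) (p : ℝ → E3 → ℝ), IsHInfAxisymNS T u p → ∀ θ l κ L a : ℝ, 0 < θ → θ ≤ 1 / 2 →
    1 ≤ κ → 1 ≤ L → L ≤ κ → 0 ≤ l → ∀ t₁ t₂ : ℝ, 0 ≤ t₁ → t₁ ≤ t₂ → t₂ < T →
    (NJ L a (u t₂) + BB θ L a (u t₂)) / 2 + l * NP κ L a (u t₂) ≤ (NJ L a (u t₁) + BB θ L a (u t₁)) / 2 + l * NP κ L a (u t₁) +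
      ∫ s in t₁..t₂, (RJ L a (u s) / 2 + RB θ L a (u s) / 2 + l * RP κ L a (u s))

/-- `NO` is Lipschitz in time, uniformly in the height. -/
def Q2l : Prop := ∀ (T : ℝ) (u : ℝ → E3 → E3) (p : ℝ → E3 → ℝ), IsHInfAxisymNS T u p → ∀ b < T, ∀ L : ℝ, 1 ≤ L →
    ∃ B : ℝ, 0 ≤ B ∧ ∀ s ∈ Icc 0 b, ∀ t ∈ Icc 0 b, ∀ a, |NO L a (u t) - NO L a (u s)| ≤ B * |t - s|

end Pool.Agent.H94.TQ
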