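import Pool.Agent.H67.TQ.C8
import Pool.Agent.H16.TQ.D
import Pool.Agent.H37.TQ.Lip
import Pool.Agent.H88.TQ.Fn
import Pool.Agent.H94.TQ.CoF

/-! MP_09540e_TQ: the core from the static rate. -/

set_option autoImplicit false

open Set Filter Topology MeasureTheory
open scoped ContDiff

namespace Pool.Agent.H94.TQ

open Pool.Agent.H67.TQ Pool.Agent.H16.TQ Pool.Agent.H88.TQ Pool.Agent.H90.TQ Pool.Agent.H94.EP

/-- Everything except the static rate. -/
theorem fin34 {dl : ℝ} {mf : ℝ → ℝ} (hm : ∀ κ : ℝ, 1 ≤ κ → 0 < mf κ) (h0 : 0 ≤ dl) (h1 : dl ≤ 1 / 72) (hq : QRate (RQf dl mf)) :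
    Core34 :=
  Pool.Agent.H67.TQ.core34 (PSf mf) (RQf dl mf) dl hq (Pool.Agent.H16.TQ.qpos hm h0 h1)
    (Pool.Agent.H16.TQ.qin hm) (Pool.Agent.H16.TQ.qcont hm) Pool.Agent.H37.TQ.q2l

/-- Everything except the source terms and the transport. -/
theorem fin34' (h1 : T1P) (hN : NtP) (hT : TrP) : Core34 := by
  obtain ⟨δ, h0, h2, hq⟩ := Fn h1 hN hT
  refine fin34 (mf := fun κ => 1 / √(Sc κ)) (fun κ hκ => ?_) h0.le h2 hq
  have h3 : 0 < Sc κ := by
    unfold Sc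
    have := Real.log_nonneg hκ
    linarith
  positivity

end Pool.Agent.H94.TQ
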