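import Pool.Agent.H94.TQ.Fin
import Pool.Agent.H87.TQ.Tr
import Pool.Agent.H90.TQ.T1
import Pool.Agent.H90.TQ.Nt

/-! MP_09540e_TQ: the criterion at one scale with the exponent 3/4. -/

set_option autoImplicit false

open Set Filter Topology MeasureTheory
open scoped ContDiff

namespace Pool.Agent.H94.TQ

open Pool.Agent.H16 Pool.Agent.H87.NS Pool.Agent.H72.CC Pool.Agent.H16.TU Pool.Agent.H94.EP

/-- The core. -/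
theorem coreTQ : Core34 := fin34' Pool.Agent.H90.TQ.t1 Pool.Agent.H90.TQ.nt Pool.Agent.H87.TQ.tr

/-- The criterion at one scale. -/
theorem twoTQ : ∃ c : ℝ, 0 < c ∧ ∀ (T : ℝ) (u : ℝ → E3 → E3) (p : ℝ → E3 → ℝ), IsHInfAxisymNS T u p → ∀ t₀ r K : ℝ,
    0 ≤ t₀ → t₀ < T → 0 < r → 0 ≤ K →
    (∀ t ∈ Ico t₀ T, ∀ x, rad x < r → |circ (u t) x| ≤ c / Real.log (2 + K) ^ (3 / 4 : ℝ)) →
    (∫ x, ‖u 0 x‖ ^ 2 ≤ K * r ∨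
      (∀ t ∈ Ico t₀ T, ∀ z, ∫ x in Metric.ball (axp z) r, ‖u t x‖ ^ 2 ≤ K * r) ∧
      (∀ s t : ℝ, t₀ ≤ s → s ≤ t → t < T → t ≤ s + r ^ 2 → ∀ z,
        ∫ τ in s..t, ∫ x in Metric.ball (axp z) r, gv (u τ) x ≤ K * r)) →
    (∀ x, rad x < r → |circ (u t₀) x| ≤ K * (rad x / r) ^ 2) →
    (∀ z, ∫ x in Metric.ball (axp z) r, (curl (u t₀) x 0 ^ 2 + curl (u t₀) x 1 ^ 2) / rsq x ≤ K / r ^ 3) →
    ∃ C : ℝ, ∀ t ∈ Ico t₀ T, ∀ x, rad x < r → |circ (u t) x| ≤ C * rad x := two34 coreTQ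

end Pool.Agent.H94.TQ
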